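import Pool.Agent.H548.SC.Defs

set_option autoImplicit false
open Classical Finset

namespace Pool.Agent.R515.SC
open Pool.Agent.H548.SC

section pow
variable {α : Type}

lemma e_succ (s : Finset α) (a : α) (ha : a ∉ s) (f : α → ℝ) (n : ℕ) :
    ∑ S ∈ (insert a s).powersetCard (n+1), ∏ x ∈ S, f x =
      ∑ S ∈ s.powersetCard (n+1), ∏ x ∈ S, f x + f a * ∑ S ∈ s.powersetCard n, ∏ x ∈ S, f x := by
  rw [Finset.powersetCard_succ_insert ha, Finset.sum_union, Finset.sum_image, Finset.mul_sum]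
  · congr 1
    apply Finset.sum_congr rfl
    intro S hS
    rw [Finset.prod_insert]
    intro h
    exact ha ((Finset.mem_powersetCard.mp hS).1 h)
  · intro S hS S' hS' h
    have h1 : a ∉ S := fun h => ha ((Finset.mem_powersetCard.mp hS).1 h)
    have h2 : a ∉ S' := fun h => ha ((Finset.mem_powersetCard.mp hS').1 h)
    have := congrArg (fun X => X.erase a) h
    simpa [Finset.erase_insert h1, Finset.erase_insert h2] using this
  · rw [Finset.disjoint_left]
    intro S hS hS'
    rw [Finset.mem_image] at hS'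
    obtain ⟨S', _, rfl⟩ := hS'
    exact ha ((Finset.mem_powersetCard.mp hS).1 (Finset.mem_insert_self _ _))

lemma e1_set (s : Finset α) (f : α → ℝ) :
    ∑ S ∈ s.powersetCard 1, ∏ x ∈ S, f x = ∑ x ∈ s, f x := by
  induction s using Finset.induction_on with
  | empty => rw [Finset.powersetCard_eq_empty.mpr (by simp)]; simp
  | insert a s ha ih =>
    rw [e_succ s a ha, ih, Finset.sum_insert ha]
    simp; ring

lemma e2_set (s : Finset α) (f : α → ℝ) :
    ∑ S ∈ s.powersetCard 2, ∏ x ∈ S, f x = ((∑ x ∈ s, f x)^2 - ∑ x ∈ s, f x^2) / 2 := by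
  induction s using Finset.induction_on with
  | empty => rw [Finset.powersetCard_eq_empty.mpr (by simp)]; simp
  | insert a s ha ih =>
    rw [e_succ s a ha, ih, e1_set, Finset.sum_insert ha, Finset.sum_insert ha]
    ring

lemma e3_set (s : Finset α) (f : α → ℝ) :
    ∑ S ∈ s.powersetCard 3, ∏ x ∈ S, f x =
      ((∑ x ∈ s, f x)^3 - 3 * (∑ x ∈ s, f x) * (∑ x ∈ s, f x^2) + 2 * ∑ x ∈ s, f x^3) / 6 := by
  induction s using Finset.induction_on with
  | empty => rw [Finset.powersetCard_eq_empty.mpr (by simp)]; simp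
  | insert a s ha ih =>
    rw [e_succ s a ha, ih, e2_set, Finset.sum_insert ha, Finset.sum_insert ha, Finset.sum_insert ha]
    ring

end pow

section
variable {ι κ : Type} [Fintype ι] [Fintype κ]

lemma eS_eq (t : ι × κ → ℝ) (k : ℕ) :
    eS t k = ∑ S ∈ (univ : Finset (ι × κ)).powersetCard k, ∏ x ∈ S, t x := by
  unfold eS wt
  rw [Finset.univ_filter_card_eq]

lemma rS_eq (t : ι × κ → ℝ) (k : ℕ) (hk : 0 < k) :
    rS t k = ∑ i : ι, ∑ S ∈ (univ : Finset κ).powersetCard k, ∏ j ∈ S, t (i, j) := by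
  unfold rS
  rw [Finset.sum_sigma']
  symm
  apply Finset.sum_bij (fun (p : Σ _ : ι, Finset κ) _ =>
    p.2.map ⟨fun j => (p.1, j), fun a b h => by simpa using h⟩)
  · rintro ⟨i, S⟩ h
    simp only [mem_sigma, mem_univ, mem_powersetCard, true_and] at h
    simp only [mem_filter, mem_univ, true_and, card_map, isRow]
    refine ⟨⟨?_, ?_⟩, h.2⟩
    · rw [Finset.map_nonempty, ← Finset.card_pos]; omega
    · intro x hx y hy
      rw [Finset.mem_map] at hx hy
      obtain ⟨a, _, rfl⟩ := hx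
      obtain ⟨b, _, rfl⟩ := hy
      rfl
  · rintro ⟨i, S⟩ h ⟨i', S'⟩ h' heq
    simp only [mem_sigma, mem_univ, mem_powersetCard, true_and] at h h'
    have hne : S.Nonempty := by rw [← Finset.card_pos]; omega
    obtain ⟨j, hj⟩ := hne
    have h1 : (i, j) ∈ S.map ⟨fun j => (i, j), fun a b h => by simpa using h⟩ :=
      Finset.mem_map.mpr ⟨j, hj, rfl⟩
    have heq' : S.map ⟨fun j => (i, j), fun a b h => by simpa using h⟩ =
      S'.map ⟨fun j => (i', j), fun a b h => by simpa using h⟩ := heq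
    rw [heq', Finset.mem_map] at h1
    obtain ⟨j', hj', he⟩ := h1
    have hii : i' = i := congrArg Prod.fst he
    subst hii
    have := Finset.map_injective _ heq'
    rw [this]
  · intro S hS
    simp only [mem_filter, mem_univ, true_and, isRow] at hS
    obtain ⟨⟨⟨x, hx⟩, hrow⟩, hcard⟩ := hS
    refine ⟨⟨x.1, S.image Prod.snd⟩, ?_, ?_⟩
    · simp only [mem_sigma, mem_univ, mem_powersetCard, true_and, subset_univ]
      rw [Finset.card_image_of_injOn, hcard]
      intro y hy z hz hyz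
      exact Prod.ext ((hrow y hy z hz)) hyz
    · ext y
      simp only [mem_map, mem_image, Function.Embedding.coeFn_mk]
      constructor
      · rintro ⟨j, ⟨z, hz, rfl⟩, rfl⟩
        have := hrow x hx z hz
        rw [this]; exact hz
      · intro hy
        exact ⟨y.2, ⟨y, hy, rfl⟩, by rw [hrow x hx y hy]⟩
  · rintro ⟨i, S⟩ h
    simp [wt, Finset.prod_map]

lemma lS_eq (t : ι × κ → ℝ) (k : ℕ) (hk : 0 < k) :
    lS t k = ∑ j : κ, ∑ S ∈ (univ : Finset ι).powersetCard k, ∏ i ∈ S, t (i, j) := by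
  unfold lS
  rw [Finset.sum_sigma']
  symm
  apply Finset.sum_bij (fun (p : Σ _ : κ, Finset ι) _ =>
    p.2.map ⟨fun i => (i, p.1), fun a b h => by simpa using h⟩)
  · rintro ⟨i, S⟩ h
    simp only [mem_sigma, mem_univ, mem_powersetCard, true_and] at h
    simp only [mem_filter, mem_univ, true_and, card_map, isCol]
    refine ⟨⟨?_, ?_⟩, h.2⟩
    · rw [Finset.map_nonempty, ← Finset.card_pos]; omega
    · intro x hx y hy
      rw [Finset.mem_map] at hx hy
      obtain ⟨a, _, rfl⟩ := hx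
      obtain ⟨b, _, rfl⟩ := hy
      rfl
  · rintro ⟨i, S⟩ h ⟨i', S'⟩ h' heq
    simp only [mem_sigma, mem_univ, mem_powersetCard, true_and] at h h'
    have hne : S.Nonempty := by rw [← Finset.card_pos]; omega
    obtain ⟨j, hj⟩ := hne
    have h1 : (j, i) ∈ S.map ⟨fun j => (j, i), fun a b h => by simpa using h⟩ :=
      Finset.mem_map.mpr ⟨j, hj, rfl⟩
    have heq' : S.map ⟨fun j => (j, i), fun a b h => by simpa using h⟩ =
      S'.map ⟨fun j => (j, i'), fun a b h => by simpa using h⟩ := heq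
    rw [heq', Finset.mem_map] at h1
    obtain ⟨j', hj', he⟩ := h1
    have hii : i' = i := congrArg Prod.snd he
    subst hii
    have := Finset.map_injective _ heq'
    rw [this]
  · intro S hS
    simp only [mem_filter, mem_univ, true_and, isCol] at hS
    obtain ⟨⟨⟨x, hx⟩, hrow⟩, hcard⟩ := hS
    refine ⟨⟨x.2, S.image Prod.fst⟩, ?_, ?_⟩
    · simp only [mem_sigma, mem_univ, mem_powersetCard, true_and, subset_univ]
      rw [Finset.card_image_of_injOn, hcard]
      intro y hy z hz hyz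
      exact Prod.ext hyz ((hrow y hy z hz))
    · ext y
      simp only [mem_map, mem_image, Function.Embedding.coeFn_mk]
      constructor
      · rintro ⟨j, ⟨z, hz, rfl⟩, rfl⟩
        have := hrow x hx z hz
        rw [this]; exact hz
      · intro hy
        exact ⟨y.1, ⟨y, hy, rfl⟩, by rw [hrow x hx y hy]⟩
  · rintro ⟨i, S⟩ h
    simp [wt, Finset.prod_map]

/-- Row sums. -/
noncomputable def rho (t : ι × κ → ℝ) (i : ι) : ℝ := ∑ k, t (i, k)

/-- Column sums. -/
noncomputable def kap (t : ι × κ → ℝ) (k : κ) : ℝ := ∑ i, t (i, k)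

lemma sum_gen (A : ι × κ → ι × κ → ℝ) :
    (∑ x : ι × κ, ∑ y : ι × κ, if gen x y then A x y else 0) =
      ∑ x : ι × κ, ∑ y : ι × κ, A x y - ∑ i : ι, ∑ k : κ, ∑ k' : κ, A (i, k) (i, k')
        - ∑ k : κ, ∑ i : ι, ∑ i' : ι, A (i, k) (i', k) + ∑ x : ι × κ, A x x := by
  have h1 : ∀ x y : ι × κ, (if gen x y then A x y else 0) =
      A x y - (if x.1 = y.1 then A x y else 0) - (if x.2 = y.2 then A x y else 0)
        + (if x = y then A x y else 0) := by
    intro x y
    unfold gen
    by_cases h1 : x.1 = y.1 <;> by_cases h2 : x.2 = y.2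
    · have : x = y := Prod.ext h1 h2
      simp [this]
    · have : x ≠ y := fun h => h2 (congrArg Prod.snd h)
      simp [h1, h2, this]
    · have : x ≠ y := fun h => h1 (congrArg Prod.fst h)
      simp [h1, h2, this]
    · have : x ≠ y := fun h => h1 (congrArg Prod.fst h)
      simp [h1, h2, this]
  simp_rw [h1, Finset.sum_add_distrib, Finset.sum_sub_distrib]
  have h2 : (∑ x : ι × κ, ∑ y : ι × κ, if x.1 = y.1 then A x y else 0) =
      ∑ i : ι, ∑ k : κ, ∑ k' : κ, A (i, k) (i, k') := by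
    rw [Fintype.sum_prod_type]
    refine Finset.sum_congr rfl fun i _ => Finset.sum_congr rfl fun k _ => ?_
    rw [Fintype.sum_prod_type, Finset.sum_eq_single i]
    · simp
    · intro b _ hb
      exact Finset.sum_eq_zero fun k' _ => if_neg (Ne.symm hb)
    · simp
  have h3 : (∑ x : ι × κ, ∑ y : ι × κ, if x.2 = y.2 then A x y else 0) =
      ∑ k : κ, ∑ i : ι, ∑ i' : ι, A (i, k) (i', k) := by
    rw [Fintype.sum_prod_type_right]
    refine Finset.sum_congr rfl fun i _ => Finset.sum_congr rfl fun k _ => ?_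
    rw [Fintype.sum_prod_type_right, Finset.sum_eq_single i]
    · simp
    · intro b _ hb
      exact Finset.sum_eq_zero fun k' _ => if_neg (Ne.symm hb)
    · simp
  have h4 : (∑ x : ι × κ, ∑ y : ι × κ, if x = y then A x y else 0) = ∑ x : ι × κ, A x x := by
    simp
  rw [h2, h3, h4]

lemma T_rho (t : ι × κ → ℝ) : ∑ i, rho t i = T t := by
  unfold rho T; rw [Fintype.sum_prod_type]

lemma T_kap (t : ι × κ → ℝ) : ∑ k, kap t k = T t := by
  unfold kap T; rw [Fintype.sum_prod_type_right]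

lemma sum_mul_fst (t : ι × κ → ℝ) (f : ι → ℝ) : ∑ x : ι × κ, t x * f x.1 = ∑ i, rho t i * f i := by
  rw [Fintype.sum_prod_type]
  refine Finset.sum_congr rfl fun i _ => ?_
  unfold rho; rw [Finset.sum_mul]

lemma sum_mul_snd (t : ι × κ → ℝ) (f : κ → ℝ) : ∑ x : ι × κ, t x * f x.2 = ∑ i, kap t i * f i := by
  rw [Fintype.sum_prod_type_right]
  refine Finset.sum_congr rfl fun i _ => ?_
  unfold kap; rw [Finset.sum_mul]

lemma K_eq (t : ι × κ → ℝ) :
    K t = (T t ^ 2 - ∑ i, rho t i ^ 2 - ∑ k, kap t k ^ 2 + ∑ x, t x ^ 2) / 2 := by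
  unfold K
  rw [sum_gen]
  have h1 : ∑ x : ι × κ, ∑ y : ι × κ, t x * t y = T t ^ 2 := by
    rw [← Finset.sum_mul_sum]; unfold T; ring
  have h2 : ∑ i : ι, ∑ k : κ, ∑ k' : κ, t (i, k) * t (i, k') = ∑ i, rho t i ^ 2 := by
    refine Finset.sum_congr rfl fun i _ => ?_
    rw [← Finset.sum_mul_sum]; unfold rho; ring
  have h3 : ∑ k : κ, ∑ i : ι, ∑ i' : ι, t (i, k) * t (i', k) = ∑ k, kap t k ^ 2 := by
    refine Finset.sum_congr rfl fun i _ => ?_
    rw [← Finset.sum_mul_sum]; unfold kap; ring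
  have h4 : ∑ x, t x * t x = ∑ x, t x ^ 2 := Finset.sum_congr rfl fun x _ => by ring
  rw [h1, h2, h3, h4]; ring

/-- The weight of the third cell. -/
noncomputable def W (t : ι × κ → ℝ) (x y : ι × κ) : ℝ :=
  T t - rho t x.1 - rho t y.1 - kap t x.2 - kap t y.2 + t x + t y + t (x.1, y.2) + t (y.1, x.2)

lemma W_nonneg (t : ι × κ → ℝ) (ht : ∀ x, 0 ≤ t x) (x y : ι × κ) (h : gen x y) : 0 ≤ W t x y := by
  have key : W t x y = ∑ z : ι × κ, (if gen x z ∧ gen y z then t z else 0) := by
    have h1 : ∀ z : ι × κ, (if gen x z ∧ gen y z then t z else 0) =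
        t z - (if z.1 = x.1 then t z else 0) - (if z.1 = y.1 then t z else 0)
          - (if z.2 = x.2 then t z else 0) - (if z.2 = y.2 then t z else 0)
          + (if z = x then t z else 0) + (if z = y then t z else 0)
          + (if z = (x.1, y.2) then t z else 0) + (if z = (y.1, x.2) then t z else 0) := by
      rintro ⟨a, b⟩
      obtain ⟨x1, x2⟩ := x
      obtain ⟨y1, y2⟩ := y
      unfold gen at h ⊢
      simp only [ne_eq] at h
      obtain ⟨h1, h2⟩ := h
      simp only [Prod.mk.injEq, ne_eq]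
      by_cases ha : a = x1
      · subst ha
        by_cases hb : b = x2
        · subst hb
          simp [h1, h2, Ne.symm h1, Ne.symm h2]
        · by_cases hb' : b = y2
          · subst hb'
            simp [h1, h2, Ne.symm h1, Ne.symm h2]
          · simp [h1, h2, hb, hb', Ne.symm hb, Ne.symm hb', Ne.symm h1, Ne.symm h2]
      · by_cases ha' : a = y1
        · subst ha'
          by_cases hb : b = x2
          · subst hb
            simp [h1, h2, Ne.symm h1, Ne.symm h2]
          · by_cases hb' : b = y2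
            · subst hb'
              simp [h1, h2, Ne.symm h1, Ne.symm h2]
            · simp [h1, h2, hb, hb', Ne.symm hb, Ne.symm hb', Ne.symm h1, Ne.symm h2]
        · by_cases hb : b = x2
          · subst hb
            simp [h1, h2, ha, ha', Ne.symm ha, Ne.symm ha', Ne.symm h1, Ne.symm h2]
          · by_cases hb' : b = y2
            · subst hb'
              simp [h1, h2, ha, ha', Ne.symm ha, Ne.symm ha', Ne.symm h1, Ne.symm h2]
            · simp [h1, h2, ha, ha', hb, hb', Ne.symm ha, Ne.symm ha', Ne.symm hb, Ne.symm hb']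
    have r1 : ∀ i : ι, (∑ z : ι × κ, if z.1 = i then t z else 0) = rho t i := by
      intro i
      rw [Fintype.sum_prod_type, Finset.sum_eq_single i]
      · simp [rho]
      · intro b _ hb
        exact Finset.sum_eq_zero fun k' _ => if_neg hb
      · simp
    have r2 : ∀ k : κ, (∑ z : ι × κ, if z.2 = k then t z else 0) = kap t k := by
      intro i
      rw [Fintype.sum_prod_type_right, Finset.sum_eq_single i]
      · simp [kap]
      · intro b _ hb
        exact Finset.sum_eq_zero fun k' _ => if_neg hb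
      · simp
    simp_rw [h1, Finset.sum_add_distrib, Finset.sum_sub_distrib, r1, r2]
    simp only [Finset.sum_ite_eq', Finset.mem_univ, if_true]
    rfl
  rw [key]
  exact Finset.sum_nonneg fun z _ => by split_ifs <;> [exact ht z; exact le_rfl]

lemma B_eq (t : ι × κ → ℝ) :
    (∑ x : ι × κ, ∑ y : ι × κ, if gen x y then t x * t y * W t x y else 0) =
      T t ^ 3 - 3 * T t * ((∑ i, rho t i ^ 2) + ∑ k, kap t k ^ 2) + 3 * T t * (∑ x, t x ^ 2)
        + 4 * (∑ x, t x ^ 3) + 2 * ((∑ i, rho t i ^ 3) + ∑ k, kap t k ^ 3)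
        - 6 * ((∑ x : ι × κ, t x ^ 2 * rho t x.1) + ∑ x : ι × κ, t x ^ 2 * kap t x.2)
        + 6 * ∑ x : ι × κ, t x * rho t x.1 * kap t x.2 := by
  rw [sum_gen]
  have hT : ∑ x, t x = T t := rfl
  have hrr : ∑ x : ι × κ, t x * rho t x.1 = ∑ i, rho t i ^ 2 := by
    rw [sum_mul_fst]; exact Finset.sum_congr rfl fun _ _ => by ring
  have hkk : ∑ x : ι × κ, t x * kap t x.2 = ∑ i, kap t i ^ 2 := by
    rw [sum_mul_snd]; exact Finset.sum_congr rfl fun _ _ => by ring
  -- all pairs
  have a1 : ∑ x : ι × κ, ∑ y : ι × κ, t x * t y * W t x y =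
      T t ^ 3 - 2 * T t * (∑ i, rho t i ^ 2) - 2 * T t * (∑ k, kap t k ^ 2)
        + 2 * T t * (∑ x, t x ^ 2) + 2 * ∑ x : ι × κ, t x * rho t x.1 * kap t x.2 := by
    have e1 : ∀ x y : ι × κ, t x * t y * W t x y =
        (t x * T t) * t y - (t x * rho t x.1) * t y - t x * (t y * rho t y.1)
          - (t x * kap t x.2) * t y - t x * (t y * kap t y.2) + (t x ^ 2) * t y + t x * (t y ^ 2)
          + t x * t y * t (x.1, y.2) + t x * t y * t (y.1, x.2) := by
      intro x y; unfold W; ring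
    have m1 : ∑ x : ι × κ, ∑ y : ι × κ, t x * t y * t (x.1, y.2) =
        ∑ x : ι × κ, t x * rho t x.1 * kap t x.2 := by
      rw [Fintype.sum_prod_type, Fintype.sum_prod_type]
      refine Finset.sum_congr rfl fun i _ => ?_
      simp_rw [Fintype.sum_prod_type_right]
      rw [Finset.sum_comm]
      refine Finset.sum_congr rfl fun k _ => ?_
      unfold rho kap
      rw [mul_assoc, Finset.sum_mul_sum, Finset.mul_sum]
      refine Finset.sum_congr rfl fun k' _ => ?_
      rw [Finset.mul_sum]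
      exact Finset.sum_congr rfl fun k' _ => by ring
    have m2 : ∑ x : ι × κ, ∑ y : ι × κ, t x * t y * t (y.1, x.2) =
        ∑ x : ι × κ, t x * rho t x.1 * kap t x.2 := by
      rw [← m1, Finset.sum_comm]
      exact Finset.sum_congr rfl fun _ _ => Finset.sum_congr rfl fun _ _ => by ring
    simp_rw [e1, Finset.sum_add_distrib, Finset.sum_sub_distrib]
    rw [m1, m2]
    simp_rw [← Finset.sum_mul_sum]
    rw [hrr, hkk, ← Finset.sum_mul, hT]
    ring
  have a2 : ∑ i : ι, ∑ k : κ, ∑ k' : κ, t (i, k) * t (i, k') * W t (i, k) (i, k') =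
      T t * (∑ i, rho t i ^ 2) - 2 * (∑ i, rho t i ^ 3)
        - 2 * (∑ x : ι × κ, t x * rho t x.1 * kap t x.2)
        + 4 * ∑ x : ι × κ, t x ^ 2 * rho t x.1 := by
    have e1 : ∀ i : ι, ∑ k : κ, ∑ k' : κ, t (i, k) * t (i, k') * W t (i, k) (i, k') =
        T t * rho t i ^ 2 - 2 * rho t i ^ 3 - 2 * (∑ k, t (i, k) * rho t i * kap t k)
          + 4 * ∑ k, t (i, k) ^ 2 * rho t i := by
      intro i
      have e2 : ∀ k k' : κ, t (i, k) * t (i, k') * W t (i, k) (i, k') =
          (t (i, k) * (T t - 2 * rho t i)) * t (i, k') - (t (i, k) * kap t k) * t (i, k')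
            - t (i, k) * (t (i, k') * kap t k') + 2 * (t (i, k) ^ 2 * t (i, k'))
            + 2 * (t (i, k) * t (i, k') ^ 2) := by
        intro k k'; unfold W; ring
      have hr : ∑ k, t (i, k) = rho t i := rfl
      simp_rw [e2, Finset.sum_add_distrib, Finset.sum_sub_distrib, ← Finset.mul_sum]
      simp_rw [← Finset.sum_mul, hr]
      have e3 : ∑ k, t (i, k) * rho t i * kap t k = rho t i * ∑ k, t (i, k) * kap t k := by
        rw [Finset.mul_sum]; exact Finset.sum_congr rfl fun _ _ => by ring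
      rw [e3]
      ring
    simp_rw [e1, Finset.sum_add_distrib, Finset.sum_sub_distrib, ← Finset.mul_sum]
    rw [Fintype.sum_prod_type, Fintype.sum_prod_type]
  have a3 : ∑ k : κ, ∑ i : ι, ∑ i' : ι, t (i, k) * t (i', k) * W t (i, k) (i', k) =
      T t * (∑ k, kap t k ^ 2) - 2 * (∑ k, kap t k ^ 3)
        - 2 * (∑ x : ι × κ, t x * rho t x.1 * kap t x.2)
        + 4 * ∑ x : ι × κ, t x ^ 2 * kap t x.2 := by
    have e1 : ∀ k : κ, ∑ i : ι, ∑ i' : ι, t (i, k) * t (i', k) * W t (i, k) (i', k) =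
        T t * kap t k ^ 2 - 2 * kap t k ^ 3 - 2 * (∑ i, t (i, k) * rho t i * kap t k)
          + 4 * ∑ i, t (i, k) ^ 2 * kap t k := by
      intro k
      have e2 : ∀ i i' : ι, t (i, k) * t (i', k) * W t (i, k) (i', k) =
          (t (i, k) * (T t - 2 * kap t k)) * t (i', k) - (t (i, k) * rho t i) * t (i', k)
            - t (i, k) * (t (i', k) * rho t i') + 2 * (t (i, k) ^ 2 * t (i', k))
            + 2 * (t (i, k) * t (i', k) ^ 2) := by
        intro i i'; unfold W; ring
      have hr : ∑ i, t (i, k) = kap t k := rfl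
      simp_rw [e2, Finset.sum_add_distrib, Finset.sum_sub_distrib, ← Finset.mul_sum]
      simp_rw [← Finset.sum_mul, hr]
      ring
    simp_rw [e1, Finset.sum_add_distrib, Finset.sum_sub_distrib, ← Finset.mul_sum]
    rw [Fintype.sum_prod_type_right, Fintype.sum_prod_type_right]
  have a4 : ∑ x : ι × κ, t x * t x * W t x x =
      T t * (∑ x, t x ^ 2) - 2 * (∑ x : ι × κ, t x ^ 2 * rho t x.1)
        - 2 * (∑ x : ι × κ, t x ^ 2 * kap t x.2) + 4 * ∑ x, t x ^ 3 := by
    have e1 : ∀ x : ι × κ, t x * t x * W t x x =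
        T t * t x ^ 2 - 2 * (t x ^ 2 * rho t x.1) - 2 * (t x ^ 2 * kap t x.2) + 4 * t x ^ 3 := by
      intro x; unfold W; simp only [Prod.mk.eta]; ring
    simp_rw [e1, Finset.sum_add_distrib, Finset.sum_sub_distrib, ← Finset.mul_sum]
  rw [a1, a2, a3, a4]
  ring

end

theorem stmtFour : StmtFour := by
  intro ι κ _ _ t ht
  have hE2 : eS t 2 = (T t ^ 2 - ∑ x, t x ^ 2) / 2 := by rw [eS_eq, e2_set]; rfl
  have hE3 : eS t 3 = (T t ^ 3 - 3 * T t * (∑ x, t x ^ 2) + 2 * ∑ x, t x ^ 3) / 6 := by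
    rw [eS_eq, e3_set]; rfl
  have hr2 : rS t 2 = ((∑ i, rho t i ^ 2) - ∑ x, t x ^ 2) / 2 := by
    rw [rS_eq t 2 (by norm_num), Fintype.sum_prod_type, ← Finset.sum_sub_distrib, Finset.sum_div]
    refine Finset.sum_congr rfl fun i _ => ?_
    rw [e2_set]; rfl
  have hl2 : lS t 2 = ((∑ k, kap t k ^ 2) - ∑ x, t x ^ 2) / 2 := by
    rw [lS_eq t 2 (by norm_num), Fintype.sum_prod_type_right, ← Finset.sum_sub_distrib,
      Finset.sum_div]
    refine Finset.sum_congr rfl fun i _ => ?_
    rw [e2_set]; rfl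
  have hr3 : rS t 3 = ((∑ i, rho t i ^ 3) - 3 * (∑ x : ι × κ, t x ^ 2 * rho t x.1)
      + 2 * ∑ x, t x ^ 3) / 6 := by
    rw [rS_eq t 3 (by norm_num), Fintype.sum_prod_type, Fintype.sum_prod_type, Finset.mul_sum,
      Finset.mul_sum, ← Finset.sum_sub_distrib, ← Finset.sum_add_distrib, Finset.sum_div]
    refine Finset.sum_congr rfl fun i _ => ?_
    rw [e3_set]
    have : ∑ k, t (i, k) ^ 2 * rho t i = (∑ k, t (i, k) ^ 2) * rho t i := by
      rw [Finset.sum_mul]
    simp only
    rw [this]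
    unfold rho
    ring
  have hl3 : lS t 3 = ((∑ k, kap t k ^ 3) - 3 * (∑ x : ι × κ, t x ^ 2 * kap t x.2)
      + 2 * ∑ x, t x ^ 3) / 6 := by
    rw [lS_eq t 3 (by norm_num), Fintype.sum_prod_type_right, Fintype.sum_prod_type_right,
      Finset.mul_sum, Finset.mul_sum, ← Finset.sum_sub_distrib, ← Finset.sum_add_distrib,
      Finset.sum_div]
    refine Finset.sum_congr rfl fun i _ => ?_
    rw [e3_set]
    have : ∑ k, t (k, i) ^ 2 * kap t i = (∑ k, t (k, i) ^ 2) * kap t i := by
      rw [Finset.sum_mul]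
    simp only
    rw [this]
    unfold kap
    ring
  have hB := B_eq t
  have hB0 : 0 ≤ (∑ x : ι × κ, ∑ y : ι × κ, if gen x y then t x * t y * W t x y else 0) := by
    refine Finset.sum_nonneg fun x _ => Finset.sum_nonneg fun y _ => ?_
    split_ifs with h
    · exact mul_nonneg (mul_nonneg (ht x) (ht y)) (W_nonneg t ht x y h)
    · exact le_rfl
  have hS : ∑ x : ι × κ, (t x * T t - rho t x.1 * kap t x.2) ^ 2 =
      T t ^ 2 * (∑ x, t x ^ 2) - 2 * T t * (∑ x : ι × κ, t x * rho t x.1 * kap t x.2)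
        + (∑ i, rho t i ^ 2) * (∑ k, kap t k ^ 2) := by
    rw [Finset.sum_mul_sum, ← Fintype.sum_prod_type' (f := fun i k => rho t i ^ 2 * kap t k ^ 2),
      Finset.mul_sum, Finset.mul_sum, ← Finset.sum_sub_distrib, ← Finset.sum_add_distrib]
    exact Finset.sum_congr rfl fun x _ => by ring
  have hS0 : 0 ≤ ∑ x : ι × κ, (t x * T t - rho t x.1 * kap t x.2) ^ 2 :=
    Finset.sum_nonneg fun x _ => sq_nonneg _
  have hT0 : 0 ≤ T t := Finset.sum_nonneg fun x _ => ht x
  rw [hE2, hE3, hr2, hl2, hr3, hl3, K_eq]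
  rw [hB] at hB0
  rw [hS] at hS0
  have hTB := mul_nonneg hT0 hB0
  nlinarith [hTB, hS0]

end Pool.Agent.R515.SC
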